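import Pool.Agent.Helper9.UP.StN

set_option autoImplicit false

/-! Module FI of project UP (MP_d466de): factorization of a principal ideal. -/

namespace Pool.Agent.Helper68.UP

open Finset NumberField Module
open Pool.Agent.Helper9.UP

variable (K : Type) [Field K] [NumberField K]

private theorem two_le_absNorm {P : Ideal (𝓞 K)} (h1 : P.IsPrime) (h2 : P ≠ ⊥) :
    2 ≤ Ideal.absNorm P := by
  have h0 : Ideal.absNorm P ≠ 0 := by
    intro h
    exact h2 (Ideal.absNorm_eq_zero_iff.mp h)
  have h1' : Ideal.absNorm P ≠ 1 := by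
    intro h
    exact h1.ne_top (Ideal.absNorm_eq_one_iff.mp h)
  omega

private theorem pow_mem_iff {P : Ideal (𝓞 K)} (h1 : P.IsPrime) (h2 : P ≠ ⊥) (x : 𝓞 K)
    (hx : x ≠ 0) (k : ℕ) [DecidableEq (Ideal (𝓞 K))] :
    x ∈ P ^ k ↔
      k ≤ (UniqueFactorizationMonoid.normalizedFactors (Ideal.span {x})).count P := by
  have hI : Ideal.span {x} ≠ (0 : Ideal (𝓞 K)) := by
    simpa [Ideal.span_singleton_eq_bot] using hx
  have hP : Prime P := (Ideal.prime_iff_isPrime h2).mpr h1
  rw [← Ideal.dvd_span_singleton, pow_dvd_iff_le_emultiplicity,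
    UniqueFactorizationMonoid.le_emultiplicity_iff_replicate_le_normalizedFactors
      hP.irreducible hI, normalize_eq, Multiset.le_count_iff_replicate_le]

theorem hFI : StFI := by
  classical
  intro K _ _ x Y hx hY
  set I : Ideal (𝓞 K) := Ideal.span {x} with hIdef
  have hI : I ≠ 0 := by
    simpa [hIdef, Ideal.span_singleton_eq_bot] using hx
  have hI' : Ideal.absNorm I ≠ 0 := by
    intro h
    exact hI (Ideal.absNorm_eq_zero_iff.mp h)
  set F := UniqueFactorizationMonoid.normalizedFactors I with hF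
  have hprod : ∏ P ∈ F.toFinset, P ^ F.count P = I := by
    rw [← Finset.prod_multiset_count]
    have := UniqueFactorizationMonoid.prod_normalizedFactors hI
    exact associated_iff_eq.mp this
  have hprime : ∀ P ∈ F, P.IsPrime ∧ P ≠ ⊥ := by
    intro P hP
    have h := UniqueFactorizationMonoid.prime_of_normalized_factor P hP
    exact ⟨Ideal.isPrime_of_prime h, h.ne_zero⟩
  have hnm : ∀ P ∈ F, nm K P ≠ 0 := by
    intro P hP
    have := two_le_absNorm K (hprime P hP).1 (hprime P hP).2
    unfold nm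
    positivity
  have hlog : Real.log (nm K I) = ∑ P ∈ F.toFinset, (F.count P : ℝ) * Real.log (nm K P) := by
    have h1 : nm K I = ∏ P ∈ F.toFinset, nm K P ^ F.count P := by
      unfold nm
      conv_lhs => rw [← hprod]
      rw [map_prod, Nat.cast_prod]
      refine Finset.prod_congr rfl (fun P _ => ?_)
      rw [map_pow, Nat.cast_pow]
    rw [h1, Real.log_prod]
    · refine Finset.sum_congr rfl (fun P _ => ?_)
      rw [Real.log_pow]
    · intro P hP
      exact pow_ne_zero _ (hnm P (Multiset.mem_toFinset.mp hP))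
  rw [hlog]
  rw [Finset.sum_finset_product (r := (pp K Y).filter (fun v => x ∈ v.1 ^ v.2))
    (s := F.toFinset) (t := fun P => Icc 1 (F.count P))]
  · refine Finset.sum_congr rfl (fun P _ => ?_)
    simp only [Finset.sum_const, Nat.card_Icc, nsmul_eq_mul, Nat.add_sub_cancel]
  · rintro ⟨P, k⟩
    simp only [pp, pI, Finset.mem_filter, Finset.mem_product, Set.Finite.mem_toFinset,
      Set.mem_setOf_eq, Multiset.mem_toFinset, Finset.mem_Icc]
    constructor
    · rintro ⟨⟨⟨⟨_, hP1, hP2⟩, hk1, _⟩, _⟩, hxk⟩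
      have h := (pow_mem_iff K hP1 hP2 x hx k).mp hxk
      refine ⟨?_, hk1, h⟩
      exact Multiset.count_pos.mp (lt_of_lt_of_le hk1 h)
    · rintro ⟨hP, hk1, hk2⟩
      obtain ⟨hP1, hP2⟩ := hprime P hP
      have hmem : x ∈ P ^ k := (pow_mem_iff K hP1 hP2 x hx k).mpr hk2
      have hdvd : P ^ k ∣ I := Ideal.dvd_span_singleton.mpr hmem
      have h2 := two_le_absNorm K hP1 hP2
      have hle : Ideal.absNorm P ^ k ≤ Y := by
        refine le_trans ?_ hY
        rw [← map_pow]
        exact Nat.le_of_dvd (Nat.pos_of_ne_zero hI') (map_dvd Ideal.absNorm hdvd)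
      have hkY : k ≤ Y := by
        have h3 : k < 2 ^ k := Nat.lt_two_pow_self
        have h4 : 2 ^ k ≤ Ideal.absNorm P ^ k := Nat.pow_le_pow_left h2 k
        omega
      have hPY : Ideal.absNorm P ≤ Y := by
        refine le_trans ?_ hle
        calc Ideal.absNorm P = Ideal.absNorm P ^ 1 := (pow_one _).symm
          _ ≤ Ideal.absNorm P ^ k := Nat.pow_le_pow_right (by omega) hk1
      exact ⟨⟨⟨⟨hPY, hP1, hP2⟩, hk1, hkY⟩, hle⟩, hmem⟩

end Pool.Agent.Helper68.UP
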